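import Pool.Agent.Lib.MP_50ecf8_co.LOC.KEL
import Pool.Agent.Lib.MP_50ecf8_co.LOC.INC
import Pool.Agent.Lib.MP_50ecf8_co.LOC.TOG
import Pool.Agent.Lib.MP_50ecf8_co.LOC.CNTS
import Pool.Agent.Lib.MP_50ecf8_co.LOC.MAINS
import Pool.Agent.Lib.MP_50ecf8_co.LOC.NBD
import Pool.Agent.Lib.MP_50ecf8_co.LOC.CDS2
import Pool.Agent.Lib.MP_50ecf8_co.LOC.DIS
import Pool.Agent.Lib.MP_50ecf8_co.LOC.BON
import Pool.Agent.Lib.MP_50ecf8_co.LOC.IND
import Pool.Agent.Lib.MP_50ecf8_co.LOC.BAD4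
import Pool.Agent.Lib.MP_50ecf8_co.LOC.R4
import Pool.Agent.Lib.MP_50ecf8_co.LOC.P4
import Pool.Agent.Lib.MP_50ecf8_co.LOC.NUM4
import Pool.Agent.Lib.MP_50ecf8_co.LOC.NUD4
import Pool.Agent.Lib.MP_50ecf8_co.LOC.FINB

/-!
# Q1 for graphs without 4-cycles whose degrees are not too small

We prove Q1 for every graph without 4-cycles (in which no two distinct vertices have two distinct
common neighbours) all of whose degrees lie between `25 log2 D` and `D`.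
-/

set_option autoImplicit false

namespace Pool.Agent.Lib.MP_50ecf8_co.Old.NoFourCycles

/-- Part 2 of condition (H): `τ` is a bijection from the vertices other than `a` to the vertices
other than `b`, and for every `i ≠ a` some isomorphism `G - i → G - τ(i)` maps `a` to `b`. -/
def CondH2 {V : Type} (G : SimpleGraph V) (a b : V) : Prop :=
  ∃ τ : {v : V // v ≠ a} ≃ {v : V // v ≠ b},
    ∀ (i : V) (hi : i ≠ a),
      ∃ θ : G.induce ({i}ᶜ : Set V) ≃g G.induce ({(τ ⟨i, hi⟩ : V)}ᶜ : Set V),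
        ∀ x : ({i}ᶜ : Set V), (x : V) = a → (θ x : V) = b

/-- **Q1 for graphs without 4-cycles all of whose degrees lie between `25 log2 D` and `D`.** -/
theorem result (V : Type) [Fintype V] (G : SimpleGraph V) (a b : V) (h : CondH2 G a b)
    (hC4 : ∀ u v x y : V, u ≠ v → x ≠ y →
      ¬(G.Adj u x ∧ G.Adj u y ∧ G.Adj v x ∧ G.Adj v y))
    (D : ℕ) (hD : 2 ≤ D)
    (hdeg : ∀ v, 25 * Real.logb 2 D ≤ ((G.neighborSet v).ncard : ℝ) ∧
      (G.neighborSet v).ncard ≤ D) :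
    ∃ φ : G ≃g G, φ a = b := by
  classical
  have hd : ∀ v, Pool.Agent.Lib.MP50ecf8.LOC.deg G v = (G.neighborSet v).ncard := by
    intro v
    rw [Pool.Agent.Lib.MP50ecf8.LOC.deg, Set.ncard_eq_toFinset_card']
    congr 1
    ext w
    simp
  have hIND := Pool.Agent.Lib.MP50ecf8.LOC.specIND
  have hR4 := Pool.Agent.Lib.MP50ecf8.LOC.specR4 (Pool.Agent.Lib.MP50ecf8.LOC.specBAD4 hIND)
  refine Pool.Agent.Lib.MP50ecf8.LOC.finC
    (Pool.Agent.Lib.MP50ecf8.LOC.specMAINS Pool.Agent.Lib.MP50ecf8.LOC.specKEL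
      Pool.Agent.Lib.MP50ecf8.LOC.inc Pool.Agent.Lib.MP50ecf8.LOC.specTOG
      Pool.Agent.Lib.MP50ecf8.LOC.specCNTS)
    Pool.Agent.Lib.MP50ecf8.LOC.specNBD Pool.Agent.Lib.MP50ecf8.LOC.specCDS2
    Pool.Agent.Lib.MP50ecf8.LOC.specDIS hR4 Pool.Agent.Lib.MP50ecf8.LOC.specP4
    Pool.Agent.Lib.MP50ecf8.LOC.specNUM4 Pool.Agent.Lib.MP50ecf8.LOC.specNUD4
    Pool.Agent.Lib.MP50ecf8.LOC.specBON h D hD ?_ ?_ ?_
  · intro v
    rw [hd]
    exact (hdeg v).2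
  · intro v
    rw [hd]
    exact (hdeg v).1
  · intro u v x y huv hxy h1 h2 h3 h4
    exact hC4 u v x y huv hxy ⟨h1, h2, h3, h4⟩

end Pool.Agent.Lib.MP_50ecf8_co.Old.NoFourCycles
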